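import Pool.Agent.Q113.MS.Stm

/-!
# Project MS, jobs HZZ, NDL and WMM
-/

set_option autoImplicit false

namespace Pool.Agent.Q208.MS

open Finset Pool.Agent.Q113.MS

theorem pt_bound (t : ℝ) :
    (103 / 500 : ℝ) * (2 * t + 3 * t ^ 2 - t ^ 4) ≤ if 0 ≤ t then 1 else 0 := by
  split_ifs with h
  · nlinarith [sq_nonneg (t ^ 2 - 15 / 8), sq_nonneg (t - 4 / 3)]
  · push Not at h
    have h1 : 2 * t + 3 * t ^ 2 - t ^ 4 = -(t * (t - 2) * (t + 1) ^ 2) := by ring
    have h2 : 0 ≤ t * (t - 2) := mul_nonneg_of_nonpos_of_nonpos h.le (by linarith)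
    have h3 := mul_nonneg h2 (sq_nonneg (t + 1))
    rw [h1]
    linarith

theorem t_HZZ : S_HZZ := by
  intro ι _ Ω X hX
  set S2 := ∑ w ∈ Ω, X w ^ 2 with hS2
  set S4 := ∑ w ∈ Ω, X w ^ 4 with hS4
  have hS4n : 0 ≤ S4 := sum_nonneg fun w _ => by positivity
  have hS2n : 0 ≤ S2 := sum_nonneg fun w _ => sq_nonneg _
  rcases hS2n.eq_or_lt with h0 | h0
  · rw [← h0]
    have : (0 : ℝ) ≤ ((Ω.filter (fun w => 0 ≤ X w)).card : ℝ) * S4 := by positivity
    simpa using this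
  have hS4p : 0 < S4 := by
    obtain ⟨w, hw, hw0⟩ := Finset.exists_ne_zero_of_sum_ne_zero h0.ne'
    have h1 : X w ≠ 0 := by
      intro h; apply hw0; rw [h]; ring
    have h2 : 0 < X w ^ 4 := by positivity
    exact lt_of_lt_of_le h2 (single_le_sum (f := fun w => X w ^ 4) (fun i _ => by positivity) hw)
  set V : ℝ := 2 / 3 * S4 / S2 with hV
  have hVp : 0 < V := by positivity
  set v := Real.sqrt V with hv
  have hvp : 0 < v := Real.sqrt_pos.mpr hVp
  have hv2 : v ^ 2 = V := Real.sq_sqrt hVp.le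
  have key : ∀ w ∈ Ω, (103 / 500 : ℝ) * (2 * (X w / v) + 3 * (X w / v) ^ 2 - (X w / v) ^ 4) ≤
      if 0 ≤ X w then 1 else 0 := by
    intro w _
    have h1 := pt_bound (X w / v)
    have h2 : (0 ≤ X w / v) ↔ (0 ≤ X w) := by
      constructor
      · intro h
        have := mul_nonneg h hvp.le
        rwa [div_mul_cancel₀ _ hvp.ne'] at this
      · intro h
        exact div_nonneg h hvp.le
    simp only [h2] at h1
    exact h1
  have hsum := sum_le_sum key
  rw [← Finset.mul_sum, sum_sub_distrib, sum_add_distrib, ← Finset.mul_sum, ← Finset.mul_sum,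
    ← Finset.sum_div] at hsum
  have e2 : ∑ w ∈ Ω, (X w / v) ^ 2 = S2 / V := by
    rw [hS2, ← hv2, Finset.sum_div]
    exact sum_congr rfl fun w _ => by rw [div_pow]
  have e4 : ∑ w ∈ Ω, (X w / v) ^ 4 = S4 / V ^ 2 := by
    rw [hS4, ← hv2, Finset.sum_div]
    exact sum_congr rfl fun w _ => by rw [div_pow]; ring
  rw [e2, e4] at hsum
  have ec : (∑ w ∈ Ω, if 0 ≤ X w then (1 : ℝ) else 0) =
      ((Ω.filter (fun w => 0 ≤ X w)).card : ℝ) := by
    rw [Finset.sum_boole]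
  rw [ec] at hsum
  have h5 : 0 ≤ (∑ w ∈ Ω, X w) / v := div_nonneg hX hvp.le
  have e5 : 3 * (S2 / V) - S4 / V ^ 2 = 9 / 4 * (S2 ^ 2 / S4) := by
    rw [hV]; field_simp; ring
  have h6 : (927 / 2000 : ℝ) * (S2 ^ 2 / S4) ≤ ((Ω.filter (fun w => 0 ≤ X w)).card : ℝ) := by
    refine le_trans ?_ hsum
    nlinarith [e5, h5]
  calc (927 / 2000 : ℝ) * S2 ^ 2 = (927 / 2000 : ℝ) * (S2 ^ 2 / S4) * S4 := by
        field_simp
    _ ≤ _ := mul_le_mul_of_nonneg_right h6 hS4n

/-- the total of the `k`-subset sums -/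
theorem sum_sub (α : Type) [DecidableEq α] (V : Finset α) (k : ℕ) (z : α → ℝ) (hk : 1 ≤ k) :
    ∑ S ∈ V.powersetCard k, ∑ i ∈ S, z i =
      ((V.card - 1).choose (k - 1) : ℝ) * ∑ i ∈ V, z i := by
  have h1 : ∀ S ∈ V.powersetCard k, ∑ i ∈ S, z i = ∑ i ∈ V, if i ∈ S then z i else 0 := by
    intro S hS
    rw [← Finset.sum_filter]
    congr 1
    ext i
    rw [mem_filter]
    exact ⟨fun h => ⟨(mem_powersetCard.mp hS).1 h, h⟩, fun h => h.2⟩
  rw [sum_congr rfl h1, sum_comm, Finset.mul_sum]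
  refine sum_congr rfl fun i hi => ?_
  rw [← Finset.sum_filter, sum_const, nsmul_eq_mul]
  congr 2
  have := card_filter_powersetCard_subset {i} V k (singleton_subset_iff.mpr hi)
    (by rw [card_singleton]; exact hk)
  rw [card_singleton] at this
  rw [← this]
  congr 1
  ext S
  simp

/-- the general counting bound -/
theorem core (hMO2 : S_MO2) (α : Type) [DecidableEq α] (V : Finset α) (k : ℕ) (x : α → ℝ)
    (K : ℝ) (hk : 1 ≤ k) (hkV : k < V.card) (hx : 0 ≤ ∑ i ∈ V, x i) (hK : 1 ≤ K)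
    (hkur : (V.card.choose k : ℝ) * ∑ S ∈ V.powersetCard k,
      (∑ i ∈ S, (x i - (∑ j ∈ V, x j) / V.card)) ^ 4 ≤
      K * (∑ S ∈ V.powersetCard k, (∑ i ∈ S, (x i - (∑ j ∈ V, x j) / V.card)) ^ 2) ^ 2) :
    (927 / 2000 : ℝ) * (V.card.choose k : ℝ) ≤ K * (NN V k x : ℝ) := by
  set μ : ℝ := (∑ j ∈ V, x j) / V.card with hμ
  have hm : (0 : ℝ) < V.card := by
    have : 0 < V.card := by omega
    exact_mod_cast this
  have hμ0 : 0 ≤ μ := div_nonneg hx hm.le
  set z : α → ℝ := fun i => x i - μ with hz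
  have hz0 : ∑ i ∈ V, z i = 0 := by
    rw [hz, sum_sub_distrib, sum_const, nsmul_eq_mul, hμ]
    field_simp
    ring
  have hcount : ((V.powersetCard k).filter (fun S => 0 ≤ ∑ i ∈ S, z i)).card ≤ NN V k x := by
    unfold NN
    apply card_le_card
    intro S hS
    rw [mem_filter] at hS ⊢
    refine ⟨hS.1, hS.2.trans ?_⟩
    exact sum_le_sum fun i _ => by rw [hz]; linarith
  have hcR : ((((V.powersetCard k).filter (fun S => 0 ≤ ∑ i ∈ S, z i)).card : ℕ) : ℝ) ≤
      (NN V k x : ℝ) := by exact_mod_cast hcount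
  have hC : (0 : ℝ) < (V.card.choose k : ℝ) := by
    exact_mod_cast Nat.choose_pos hkV.le
  have hMO := hMO2 α V k z hk hkV.le (by omega) hz0
  set A := ∑ S ∈ V.powersetCard k, (∑ i ∈ S, z i) ^ 2 with hA
  have hQn : 0 ≤ ∑ i ∈ V, z i ^ 2 := sum_nonneg fun i _ => sq_nonneg _
  rcases hQn.eq_or_lt with hQ | hQ
  · -- all `z` vanish
    have hall : ∀ i ∈ V, z i = 0 := by
      intro i hi
      have := (Finset.sum_eq_zero_iff_of_nonneg (fun i _ => sq_nonneg (z i))).mp hQ.symm i hi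
      exact pow_eq_zero_iff two_ne_zero |>.mp this
    have hfull : (V.powersetCard k).filter (fun S => 0 ≤ ∑ i ∈ S, z i) = V.powersetCard k := by
      apply filter_true_of_mem
      intro S hS
      rw [sum_eq_zero fun i hi => hall i ((mem_powersetCard.mp hS).1 hi)]
    rw [hfull, card_powersetCard] at hcR
    nlinarith
  · have hk0 : (0 : ℝ) < k := by exact_mod_cast hk
    have hmk : (0 : ℝ) < (V.card : ℝ) - k := by
      have : (k : ℝ) < V.card := by exact_mod_cast hkV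
      linarith
    have hm1 : (0 : ℝ) < (V.card : ℝ) - 1 := by
      have : (1 : ℝ) ≤ k := by exact_mod_cast hk
      linarith
    have hAp : 0 < A := by
      rw [hMO]
      positivity
    have hX0 : 0 ≤ ∑ S ∈ V.powersetCard k, ∑ i ∈ S, z i := by
      rw [sum_sub α V k z hk, hz0, mul_zero]
    classical
    have hH := t_HZZ (Finset α) (V.powersetCard k) (fun S => ∑ i ∈ S, z i) hX0
    set N := ((((V.powersetCard k).filter (fun S => 0 ≤ ∑ i ∈ S, z i)).card : ℕ) : ℝ) with hN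
    have hN0 : 0 ≤ N := Nat.cast_nonneg _
    have h1 : (927 / 2000 : ℝ) * (V.card.choose k : ℝ) * A ^ 2 ≤ K * N * A ^ 2 := by
      calc (927 / 2000 : ℝ) * (V.card.choose k : ℝ) * A ^ 2
          = (V.card.choose k : ℝ) * ((927 / 2000 : ℝ) * A ^ 2) := by ring
        _ ≤ (V.card.choose k : ℝ) * (N * ∑ S ∈ V.powersetCard k, (∑ i ∈ S, z i) ^ 4) :=
            mul_le_mul_of_nonneg_left hH hC.le
        _ = N * ((V.card.choose k : ℝ) * ∑ S ∈ V.powersetCard k, (∑ i ∈ S, z i) ^ 4) := by ring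
        _ ≤ N * (K * A ^ 2) := mul_le_mul_of_nonneg_left hkur hN0
        _ = K * N * A ^ 2 := by ring
    have h2 := le_of_mul_le_mul_right h1 (by positivity)
    exact h2.trans (mul_le_mul_of_nonneg_left hcR (by linarith))

theorem t_NDL : S_MO2 → S_KUR2 → S_HZZ → S_NDL := by
  intro hMO2 hK2 _ α _ V k x φ hk hkV hφ hφ2 hx hdom
  set μ : ℝ := (∑ j ∈ V, x j) / V.card with hμ
  have hkV' : k < V.card := by omega
  have hm : (0 : ℝ) < V.card := by
    have : 0 < V.card := by omega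
    exact_mod_cast this
  have hk0 : (0 : ℝ) < k := by
    have : 0 < k := by omega
    exact_mod_cast this
  have hz0 : ∑ i ∈ V, (x i - μ) = 0 := by
    rw [sum_sub_distrib, sum_const, nsmul_eq_mul, hμ]
    field_simp
    ring
  have h4 : ∑ i ∈ V, (x i - μ) ^ 4 ≤ φ * (∑ i ∈ V, (x i - μ) ^ 2) ^ 2 := by
    have h5 : ∑ i ∈ V, (x i - μ) ^ 4 ≤
        ∑ i ∈ V, (x i - μ) ^ 2 * (φ * ∑ i ∈ V, (x i - μ) ^ 2) := by
      refine sum_le_sum fun i hi => ?_
      have := mul_le_mul_of_nonneg_left (hdom i hi) (sq_nonneg (x i - μ))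
      calc (x i - μ) ^ 4 = (x i - μ) ^ 2 * (x i - μ) ^ 2 := by ring
        _ ≤ _ := this
    rw [← Finset.sum_mul] at h5
    calc _ ≤ _ := h5
      _ = _ := by ring
  have hkur := hK2 α V k (fun i => x i - μ) φ hk hkV hφ hφ2 hz0 h4
  refine core hMO2 α V k x _ (by omega) hkV' hx ?_ hkur
  have h8 : (8 : ℝ) ≤ (V.card : ℝ) / k := by
    rw [le_div_iff₀ hk0]
    exact_mod_cast hkV
  nlinarith

theorem t_WMM : S_MO2 → S_KUR1 → S_HZZ → S_WMM := by
  intro hMO2 hK1 _ α _ V k x hk hkV hx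
  have hkV' : k < V.card := by omega
  have hm : (0 : ℝ) < V.card := by
    have : 0 < V.card := by omega
    exact_mod_cast this
  have hk0 : (0 : ℝ) < k := by
    have : 0 < k := by omega
    exact_mod_cast this
  set μ : ℝ := (∑ j ∈ V, x j) / V.card with hμ
  have hz0 : ∑ i ∈ V, (x i - μ) = 0 := by
    rw [sum_sub_distrib, sum_const, nsmul_eq_mul, hμ]
    field_simp
    ring
  have hkur := hK1 α V k (fun i => x i - μ) hk hkV hz0
  have h8 : (8 : ℝ) ≤ (V.card : ℝ) / k := by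
    rw [le_div_iff₀ hk0]
    exact_mod_cast hkV
  have h := core hMO2 α V k x _ (by omega) hkV' hx (by linarith) hkur
  have h2 := mul_le_mul_of_nonneg_left h hk0.le
  calc (927 / 2000 : ℝ) * (k : ℝ) * (V.card.choose k : ℝ)
      = (k : ℝ) * ((927 / 2000 : ℝ) * (V.card.choose k : ℝ)) := by ring
    _ ≤ (k : ℝ) * (((V.card : ℝ) / k - 1) * (NN V k x : ℝ)) := h2
    _ = _ := by field_simp

end Pool.Agent.Q208.MS
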